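import Pool.Agent.Helper1.TE.Goals2

/-!
# Packet TE-EE: the numeric step of the machine is the step of the algorithm
-/

set_option autoImplicit false

namespace Pool.Agent.Helper37.TE

open Pool.Agent.Helper1.TE
open Pool.Agent.Helper65.LinSpace (dig tab nrec ifz eq01 le01 lt01 capPow)

theorem ofNat_val {i : ℕ} (hi : i < 3) : ((Fin.ofNat 3 i : Fin 3) : ℕ) = i := by
  simp [Fin.ofNat, Nat.mod_eq_of_lt hi]

theorem toF_ofNat (C : C3) {i : ℕ} (hi : i < 3) : toF C (Fin.ofNat 3 i) = getC C i := by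
  rw [toF, ofNat_val hi]

theorem toF_setC (C : C3) {i : ℕ} (hi : i < 3) (z : ℕ × ℕ) :
    toF (setC C i z) = Function.update (toF C) (Fin.ofNat 3 i) z := by
  obtain ⟨x, y, w⟩ := C
  interval_cases i <;> funext k <;> fin_cases k <;> rfl

theorem ofNat_add (i k : ℕ) (_ : k < 3) :
    (Fin.ofNat 3 ((i + k) % 3) : Fin 3) = Fin.ofNat 3 i + Fin.ofNat 3 k := by
  apply Fin.ext
  simp [Fin.ofNat, Fin.val_add]

/-- **EE.** -/
theorem gEE : GoalEE := by
  intro _ _ hEC hED tst leaf f h b W τ g v C hP hW hτ hh hv0 hv1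
  obtain ⟨hsh, happ⟩ := hEC ‹_› ‹_› h b W hP hW
  obtain ⟨⟨-, -, -, -, htr, htg, hk, -⟩, hop⟩ :=
    hED (gadM h b W) tst leaf f h τ (g / 2 ^ b) (g % 2 ^ b) W (toF C) hτ hh
  rw [hop]
  set T := trN h τ (lvl h τ) with hT
  set i := tgN h τ (lvl h τ) with hi
  set nd := nodeN h τ (lvl h τ) W with hnd
  have e1 : (Fin.ofNat 3 ((i + 1) % 3) : Fin 3) = Fin.ofNat 3 i + 1 := ofNat_add i 1 (by norm_num)
  have e2 : (Fin.ofNat 3 ((i + 2) % 3) : Fin 3) = Fin.ofNat 3 i + 2 := ofNat_add i 2 (by norm_num)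
  have l1 : (i + 1) % 3 < 3 := Nat.mod_lt _ (by norm_num)
  have l2 : (i + 2) % 3 < 3 := Nat.mod_lt _ (by norm_num)
  rcases Nat.lt_or_ge (kindN h τ) 1 with h0 | h0
  · have h0 : kindN h τ = 0 := by omega
    rw [if_pos h0, happ tst T _ _ htr, toF_ofNat C htg, ← hv0 h0]
    have eT : bigT h b W tst τ v C = apT h b W tst T v (getC C i) := by
      simp [bigT, h0, ifz, hT, hi]
    have eC : bigC h b W τ g v C = setC C i (apM h b W T v (getC C i)) := by
      simp [bigC, h0, cif, hT, hi]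
    rw [eT, eC, toF_setC C htg]
    by_cases hc : apT h b W tst T v (getC C i) = 0
    · rw [if_pos hc, if_pos hc]; rfl
    · rw [if_neg hc, if_neg hc]; rfl
  · rcases Nat.lt_or_ge (kindN h τ) 2 with h1 | h1
    · have h1 : kindN h τ = 1 := by omega
      rw [if_neg (by omega), if_pos h1]
      rw [guess, happ tst T _ _ htr, toF_ofNat C htg, ← hv1 h1]
      have eT : bigT h b W tst τ v C = apT h b W tst T v (getC C i) := by
        simp [bigT, h1, ifz, hT, hi]
      have eC : bigC h b W τ g v C = setC (setC (setC C i (apM h b W T v (getC C i)))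
          ((i + 1) % 3) (shM h b W (g / 2 ^ b) (getC C ((i + 1) % 3)).1,
            (getC C ((i + 1) % 3)).2))
          ((i + 2) % 3) (shM h b W (g % 2 ^ b) (getC C ((i + 2) % 3)).1,
            (getC C ((i + 2) % 3)).2) := by
        simp [bigC, h1, cif, hT, hi]
      rw [eT, eC, toF_setC _ l2, toF_setC _ l1, toF_setC C htg, e1, e2]
      by_cases hc : apT h b W tst T v (getC C i) = 0
      · rw [if_pos hc, if_pos hc]; rfl
      · rw [if_neg hc, if_neg hc, Option.map_some, hsh, hsh, ← toF_ofNat C l1, ← toF_ofNat C l2,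
          e1, e2]
    · have h2 : kindN h τ = 2 := by omega
      rw [if_neg (by omega), if_neg (by omega)]
      have eT : bigT h b W tst τ v C = 1 := by
        simp [bigT, h2, ifz]
      have eC : bigC h b W τ g v C = C := by
        simp [bigC, h2, cif]
      rw [eT, eC, if_neg one_ne_zero]

end Pool.Agent.Helper37.TE
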